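import Pool.Agent.Lib.MP_af79d0_an.Final

set_option autoImplicit false
open MeasureTheory Filter Topology Set

namespace Pool.Agent.Results.MP_af79d0_an.AllSubspacesStandard

/-- the Banach space `L¹(w)` of `𝕜`-valued functions: (classes of) measurable `f` with
`∫ |f| w < ∞`, normed by this integral; `𝕜` is `ℝ` or `ℂ` -/
noncomputable abbrev L1 (𝕜 : Type) [RCLike 𝕜] (w : ℝ → ℝ) : Type :=
  Lp 𝕜 1 ((volume : Measure ℝ).withDensity fun x => ENNReal.ofReal (w x))

/-- `log w` is convex on `(-∞,a]` and concave on `[b,∞)` for some `a ≤ b` -/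
def ConvexConcave (w : ℝ → ℝ) : Prop :=
  ∃ a b : ℝ, a ≤ b ∧ ConvexOn ℝ (Iic a) (fun x => Real.log (w x)) ∧
    ConcaveOn ℝ (Ici b) (fun x => Real.log (w x))

/-- (i): `log w(x) / x → -∞` as `|x| → ∞` -/
def CondI (w : ℝ → ℝ) : Prop :=
  Tendsto (fun x => Real.log (w x) / x) atTop atBot ∧
    Tendsto (fun x => Real.log (w x) / x) atBot atBot

/-- `∫_{(-R,R]} dP(x) / (1+x²)`, the integral for the Lebesgue-Stieltjes measure of `P` -/
noncomputable def stieltjes (P : StieltjesFunction ℝ) (R : ℝ) : ℝ :=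
  ∫ x in Ioc (-R) R, 1 / (1 + x ^ 2) ∂P.measure

/-- `log w` is locally of bounded variation (a difference of two monotone functions `P`, `N`) and
(ii): its Stieltjes integral `∫_{-R}^{R} d(log w(x)) / (1+x²)` tends to `-∞` as `R → ∞` -/
def CondII (w : ℝ → ℝ) : Prop :=
  ∃ P N : StieltjesFunction ℝ, (∀ x, Real.log (w x) = P x - N x) ∧
    Tendsto (fun R : ℝ => stieltjes P R - stieltjes N R) atTop atBot

/-- `T_a V ⊆ V` for all `a ≥ 0`, where `(T_a f)(x) = f(x - a)` -/
def RightInvariant {𝕜 : Type} [RCLike 𝕜] {w : ℝ → ℝ} (V : Submodule 𝕜 (L1 𝕜 w)) : Prop :=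
  ∀ a : ℝ, 0 ≤ a → ∀ f ∈ V, ∃ g ∈ V, (g : ℝ → 𝕜) =ᵐ[volume] fun x => (f : ℝ → 𝕜) (x - a)

/-- the standard subspaces: `{0}`, the whole space, and, for real `a`, the space of all `f`
vanishing a.e. on `(-∞,a)` -/
def Standard {𝕜 : Type} [RCLike 𝕜] {w : ℝ → ℝ} (V : Submodule 𝕜 (L1 𝕜 w)) : Prop :=
  V = ⊥ ∨ V = ⊤ ∨ ∃ a : ℝ, ∀ f : L1 𝕜 w, f ∈ V ↔ ∀ᵐ x : ℝ, x < a → (f : ℝ → 𝕜) x = 0

/-! ### condition (ii) -/

/-- integration of a continuous function against `P - N` on an interval where `P - N` is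
absolutely continuous -/
lemma stieltjes_ac (P N : StieltjesFunction ℝ) (L : ℝ → ℝ) (hL : ∀ x, L x = P x - N x)
    (u v : ℝ) (huv : u ≤ v) (hac : AbsolutelyContinuousOnInterval L u v) (g : ℝ → ℝ)
    (hg : Continuous g) :
    (∫ x in Ioc u v, g x ∂P.measure) - ∫ x in Ioc u v, g x ∂N.measure
      = ∫ x in Ioc u v, g x * deriv L x := by
  set D := deriv L with hD
  have hDm : Measurable D := measurable_deriv L
  have hDint : IntegrableOn D (Ioc u v) := by
    have := hac.intervalIntegrable_deriv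
    rwa [intervalIntegrable_iff_integrableOn_Ioc_of_le huv] at this
  have hmp : Measurable fun x => ENNReal.ofReal (D x) := hDm.ennreal_ofReal
  have hmn : Measurable fun x => ENNReal.ofReal (-D x) := hDm.neg.ennreal_ofReal
  have hpos : Integrable (fun x => max (D x) 0) (volume.restrict (Ioc u v)) := hDint.pos_part
  have hneg : Integrable (fun x => max (-D x) 0) (volume.restrict (Ioc u v)) := hDint.neg_part
  -- the two measures
  have key : P.measure.restrict (Ioc u v) +
      (volume.restrict (Ioc u v)).withDensity (fun x => ENNReal.ofReal (-D x)) =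
      N.measure.restrict (Ioc u v) +
      (volume.restrict (Ioc u v)).withDensity (fun x => ENNReal.ofReal (D x)) := by
    have hfin1 : ∀ x y : ℝ, (P.measure.restrict (Ioc u v) +
      (volume.restrict (Ioc u v)).withDensity (fun x => ENNReal.ofReal (-D x))) (Ioc x y) ≠ ⊤ := by
      intro x y
      rw [Measure.add_apply]
      apply ENNReal.add_ne_top.2 ⟨?_, ?_⟩
      · exact measure_Ioc_lt_top.ne
      · rw [withDensity_apply _ measurableSet_Ioc]
        have h1 := hneg.lintegral_lt_top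
        refine (lt_of_le_of_lt ?_ h1).ne
        refine (lintegral_mono' Measure.restrict_le_self (le_refl _)).trans ?_
        apply lintegral_mono
        intro t
        exact ENNReal.ofReal_le_ofReal (le_max_left _ _)
    apply Measure.ext_of_Ioc'
    · intro x y _
      exact hfin1 x y
    intro x y _
    rw [Measure.add_apply, Measure.add_apply, Measure.restrict_apply measurableSet_Ioc,
      Measure.restrict_apply measurableSet_Ioc, withDensity_apply _ measurableSet_Ioc,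
      withDensity_apply _ measurableSet_Ioc, Measure.restrict_restrict measurableSet_Ioc,
      Ioc_inter_Ioc]
    set x' := max x u with hx'
    set y' := min y v with hy'
    rcases le_total y' x' with h | h
    · rw [Ioc_eq_empty (not_lt.2 h)]
      simp
    have hsub : Ioc x' y' ⊆ Ioc u v :=
      Ioc_subset_Ioc (le_max_right _ _) (min_le_right _ _)
    have hi1 : Integrable (fun x => max (-D x) 0) (volume.restrict (Ioc x' y')) :=
      hneg.mono_measure (Measure.restrict_mono hsub le_rfl)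
    have hi2 : Integrable (fun x => max (D x) 0) (volume.restrict (Ioc x' y')) :=
      hpos.mono_measure (Measure.restrict_mono hsub le_rfl)
    have e1 : ∫⁻ a in Ioc x' y', ENNReal.ofReal (-D a)
        = ENNReal.ofReal (∫ a in Ioc x' y', max (-D a) 0) := by
      rw [ofReal_integral_eq_lintegral_ofReal hi1 (ae_of_all _ fun _ => le_max_right _ _)]
      apply lintegral_congr
      intro t
      rw [ENNReal.ofReal_max, ENNReal.ofReal_zero, max_eq_left zero_le]
    have e2 : ∫⁻ a in Ioc x' y', ENNReal.ofReal (D a)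
        = ENNReal.ofReal (∫ a in Ioc x' y', max (D a) 0) := by
      rw [ofReal_integral_eq_lintegral_ofReal hi2 (ae_of_all _ fun _ => le_max_right _ _)]
      apply lintegral_congr
      intro t
      rw [ENNReal.ofReal_max, ENNReal.ofReal_zero, max_eq_left zero_le]
    have p1 : 0 ≤ ∫ a in Ioc x' y', max (-D a) 0 := integral_nonneg fun _ => le_max_right _ _
    have p2 : 0 ≤ ∫ a in Ioc x' y', max (D a) 0 := integral_nonneg fun _ => le_max_right _ _
    rw [StieltjesFunction.measure_Ioc, StieltjesFunction.measure_Ioc, e1, e2,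
      ← ENNReal.ofReal_add (sub_nonneg.2 (P.mono h)) p1,
      ← ENNReal.ofReal_add (sub_nonneg.2 (N.mono h)) p2]
    congr 1
    have hftc : ∫ t in Ioc x' y', D t = L y' - L x' := by
      have hac' : AbsolutelyContinuousOnInterval L x' y' := by
        apply hac.mono
        rw [uIcc_of_le h, uIcc_of_le huv]
        exact Icc_subset_Icc (le_max_right _ _) (min_le_right _ _)
      have := hac'.integral_deriv_eq_sub
      rwa [intervalIntegral.integral_of_le h] at this
    have hsplit : ∫ t in Ioc x' y', D t =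
        (∫ t in Ioc x' y', max (D t) 0) - ∫ t in Ioc x' y', max (-D t) 0 := by
      rw [← integral_sub hi2 hi1]
      congr 1
      ext t
      rcases le_total (D t) 0 with h0 | h0
      · rw [max_eq_right h0, max_eq_left (by linarith)]; ring
      · rw [max_eq_left h0, max_eq_right (by linarith)]; ring
    rw [hsplit] at hftc
    have hx := hL x'
    have hy := hL y'
    linarith
  -- integrate g
  have hgm : Measurable g := hg.measurable
  obtain ⟨C, hC⟩ := (isCompact_Icc (a := u) (b := v)).exists_bound_of_continuousOn hg.continuousOn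
  have hgP : Integrable g (P.measure.restrict (Ioc u v)) := by
    apply Measure.integrableOn_of_bounded (M := C) measure_Ioc_lt_top.ne hgm.aestronglyMeasurable
    filter_upwards [ae_restrict_mem measurableSet_Ioc] with x hx
    exact hC x (Ioc_subset_Icc_self hx)
  have hgN : Integrable g (N.measure.restrict (Ioc u v)) := by
    apply Measure.integrableOn_of_bounded (M := C) measure_Ioc_lt_top.ne hgm.aestronglyMeasurable
    filter_upwards [ae_restrict_mem measurableSet_Ioc] with x hx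
    exact hC x (Ioc_subset_Icc_self hx)
  have hgb : ∀ᵐ x ∂(volume.restrict (Ioc u v)), ‖g x‖ ≤ C := by
    filter_upwards [ae_restrict_mem measurableSet_Ioc] with x hx
    exact hC x (Ioc_subset_Icc_self hx)
  have hgn : Integrable (fun x => max (-D x) 0 * g x) (volume.restrict (Ioc u v)) :=
    hneg.mul_bdd hgm.aestronglyMeasurable hgb
  have hgp : Integrable (fun x => max (D x) 0 * g x) (volume.restrict (Ioc u v)) :=
    hpos.mul_bdd hgm.aestronglyMeasurable hgb
  have hwn : Integrable g ((volume.restrict (Ioc u v)).withDensity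
      (fun x => ENNReal.ofReal (-D x))) := by
    rw [integrable_withDensity_iff_integrable_smul' hmn (ae_of_all _ fun _ => ENNReal.ofReal_lt_top)]
    refine hgn.congr (ae_of_all _ fun x => ?_)
    simp only [smul_eq_mul, ENNReal.toReal_ofReal']
  have hwp : Integrable g ((volume.restrict (Ioc u v)).withDensity
      (fun x => ENNReal.ofReal (D x))) := by
    rw [integrable_withDensity_iff_integrable_smul' hmp (ae_of_all _ fun _ => ENNReal.ofReal_lt_top)]
    refine hgp.congr (ae_of_all _ fun x => ?_)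
    simp only [smul_eq_mul, ENNReal.toReal_ofReal']
  have hmain : ∫ x, g x ∂(P.measure.restrict (Ioc u v) +
      (volume.restrict (Ioc u v)).withDensity (fun x => ENNReal.ofReal (-D x))) =
      ∫ x, g x ∂(N.measure.restrict (Ioc u v) +
      (volume.restrict (Ioc u v)).withDensity (fun x => ENNReal.ofReal (D x))) := by
    rw [key]
  rw [integral_add_measure hgP hwn, integral_add_measure hgN hwp,
    integral_withDensity_eq_integral_toReal_smul hmn (ae_of_all _ fun _ => ENNReal.ofReal_lt_top),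
    integral_withDensity_eq_integral_toReal_smul hmp (ae_of_all _ fun _ => ENNReal.ofReal_lt_top)]
    at hmain
  simp only [smul_eq_mul, ENNReal.toReal_ofReal'] at hmain
  have hfin : ∫ x in Ioc u v, g x * D x =
      (∫ x in Ioc u v, max (D x) 0 * g x) - ∫ x in Ioc u v, max (-D x) 0 * g x := by
    rw [← integral_sub hgp hgn]
    congr 1
    ext t
    rcases le_total (D t) 0 with h0 | h0
    · rw [max_eq_right h0, max_eq_left (by linarith)]; ring
    · rw [max_eq_left h0, max_eq_right (by linarith)]; ring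
  rw [hfin]
  linarith

/-- lower bound of one piece by a lower integral -/
lemma piece_ge (P N : StieltjesFunction ℝ) (L : ℝ → ℝ) (hL : ∀ x, L x = P x - N x)
    (u v : ℝ) (huv : u ≤ v) (hac : AbsolutelyContinuousOnInterval L u v) (s : Set ℝ)
    (hs : Ioc u v ⊆ s)
    (hfin : ∫⁻ x in s, ENNReal.ofReal (-deriv L x / (1 + x ^ 2)) ≠ ⊤) :
    -(∫⁻ x in s, ENNReal.ofReal (-deriv L x / (1 + x ^ 2))).toReal ≤
      (∫ x in Ioc u v, 1 / (1 + x ^ 2) ∂P.measure) -
        ∫ x in Ioc u v, 1 / (1 + x ^ 2) ∂N.measure := by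
  have hcont : Continuous fun x : ℝ => 1 / (1 + x ^ 2) := by
    apply Continuous.div continuous_const (by fun_prop)
    intro x
    positivity
  rw [stieltjes_ac P N L hL u v huv hac _ hcont]
  have hDint : IntegrableOn (deriv L) (Ioc u v) := by
    have := hac.intervalIntegrable_deriv
    rwa [intervalIntegrable_iff_integrableOn_Ioc_of_le huv] at this
  have hb : ∀ᵐ x ∂(volume.restrict (Ioc u v)), ‖1 / (1 + x ^ 2 : ℝ)‖ ≤ 1 := by
    apply ae_of_all
    intro x
    rw [Real.norm_eq_abs, abs_of_nonneg (by positivity)]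
    rw [div_le_one (by positivity)]
    nlinarith [sq_nonneg x]
  have hint : Integrable (fun x => -deriv L x / (1 + x ^ 2)) (volume.restrict (Ioc u v)) := by
    have h1 : Integrable (fun x => deriv L x * (1 / (1 + x ^ 2))) (volume.restrict (Ioc u v)) :=
      Integrable.mul_bdd hDint hcont.measurable.aestronglyMeasurable hb
    refine h1.neg.congr (ae_of_all _ fun x => ?_)
    simp only [Pi.neg_apply]
    ring
  have h2 : ∫ x in Ioc u v, 1 / (1 + x ^ 2) * deriv L x =
      -∫ x in Ioc u v, -deriv L x / (1 + x ^ 2) := by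
    rw [← integral_neg]
    congr 1
    ext x
    ring
  rw [h2]
  apply neg_le_neg
  calc ∫ x in Ioc u v, -deriv L x / (1 + x ^ 2)
      ≤ ∫ x in Ioc u v, max (-deriv L x / (1 + x ^ 2)) 0 := by
        apply integral_mono hint hint.pos_part
        intro x
        exact le_max_left _ _
    _ = (∫⁻ x in Ioc u v, ENNReal.ofReal (-deriv L x / (1 + x ^ 2))).toReal := by
        have p0 : 0 ≤ᵐ[volume.restrict (Ioc u v)]
            fun x => max (-deriv L x / (1 + x ^ 2)) 0 := ae_of_all _ fun x => le_max_right _ _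
        rw [integral_eq_lintegral_of_nonneg_ae p0 hint.pos_part.aestronglyMeasurable]
        congr 1
        apply lintegral_congr
        intro x
        rw [ENNReal.ofReal_max, ENNReal.ofReal_zero, max_eq_left zero_le]
    _ ≤ _ := by
        apply ENNReal.toReal_mono hfin
        exact lintegral_mono_set hs

/-- an absolutely continuous piece from local Lipschitz continuity -/
lemma ac_of_lip (L : ℝ → ℝ) (s : Set ℝ) (hs : LocallyLipschitzOn (interior s) L) (u v : ℝ)
    (huv : u ≤ v) (h : Icc u v ⊆ interior s) : AbsolutelyContinuousOnInterval L u v := by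
  obtain ⟨K, hK⟩ := (hs.mono h).exists_lipschitzOnWith_of_compact isCompact_Icc
  apply LipschitzOnWith.absolutelyContinuousOnInterval (K := K)
  rwa [uIcc_of_le huv]

/-- (ii) as a lower integral of the derivative, near the two infinities -/
lemma lintegral_top (w : ℝ → ℝ) (h2 : CondII w) (a b : ℝ) (hab : a ≤ b)
    (hcv : ConvexOn ℝ (Iic a) (fun x => Real.log (w x)))
    (hcc : ConcaveOn ℝ (Ici b) (fun x => Real.log (w x))) :
    (∫⁻ x in Iic a, ENNReal.ofReal (-deriv (fun y => Real.log (w y)) x / (1 + x ^ 2))) +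
      (∫⁻ x in Ici b, ENNReal.ofReal (-deriv (fun y => Real.log (w y)) x / (1 + x ^ 2))) = ⊤ := by
  by_contra hcon
  obtain ⟨hA, hB⟩ := ENNReal.add_ne_top.1 hcon
  obtain ⟨P, N, hPN, hT⟩ := h2
  set L : ℝ → ℝ := fun x => Real.log (w x) with hLdef
  set φ : ℝ → ℝ := fun x => 1 / (1 + x ^ 2) with hφ
  have hcont : Continuous φ := by
    apply Continuous.div continuous_const (by fun_prop)
    intro x
    positivity
  have hloc : ∀ (Q : StieltjesFunction ℝ) (x y : ℝ), IntegrableOn φ (Ioc x y) Q.measure := by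
    intro Q x y
    apply Measure.integrableOn_of_bounded (M := 1) measure_Ioc_lt_top.ne
      hcont.measurable.aestronglyMeasurable
    apply ae_of_all
    intro t
    simp only [hφ]
    rw [Real.norm_eq_abs, abs_of_nonneg (by positivity), div_le_one (by positivity)]
    nlinarith [sq_nonneg t]
  set K : ℝ := (∫ x in Ioc (a - 1) (b + 1), φ x ∂P.measure) -
    ∫ x in Ioc (a - 1) (b + 1), φ x ∂N.measure with hK
  set CA : ℝ := (∫⁻ x in Iic a, ENNReal.ofReal (-deriv L x / (1 + x ^ 2))).toReal with hCA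
  set CB : ℝ := (∫⁻ x in Ici b, ENNReal.ofReal (-deriv L x / (1 + x ^ 2))).toReal with hCB
  have hsplit : ∀ (Q : StieltjesFunction ℝ) (R : ℝ), -R ≤ a - 1 → b + 1 ≤ R →
      stieltjes Q R = (∫ x in Ioc (-R) (a - 1), φ x ∂Q.measure) +
        ((∫ x in Ioc (a - 1) (b + 1), φ x ∂Q.measure) +
          ∫ x in Ioc (b + 1) R, φ x ∂Q.measure) := by
    intro Q R h1 h2
    unfold stieltjes
    have e1 : Ioc (-R) R = Ioc (-R) (a - 1) ∪ (Ioc (a - 1) (b + 1) ∪ Ioc (b + 1) R) := by
      rw [Ioc_union_Ioc_eq_Ioc (by linarith) h2, Ioc_union_Ioc_eq_Ioc h1 (by linarith)]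
    have d1 : Disjoint (Ioc (a - 1) (b + 1)) (Ioc (b + 1) R) := by
      rw [Set.disjoint_left]
      intro x hx hx'
      exact absurd hx.2 (not_le.2 hx'.1)
    have d2 : Disjoint (Ioc (-R) (a - 1)) (Ioc (a - 1) (b + 1) ∪ Ioc (b + 1) R) := by
      rw [Ioc_union_Ioc_eq_Ioc (by linarith) h2, Set.disjoint_left]
      intro x hx hx'
      exact absurd hx.2 (not_le.2 hx'.1)
    rw [e1, setIntegral_union d2 (measurableSet_Ioc.union measurableSet_Ioc) (hloc Q _ _)
      ((hloc Q _ _).union (hloc Q _ _)),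
      setIntegral_union d1 measurableSet_Ioc (hloc Q _ _) (hloc Q _ _)]
  have hbelow : ∀ R : ℝ, -R ≤ a - 1 → b + 1 ≤ R → -CA + (K + -CB) ≤ stieltjes P R - stieltjes N R := by
    intro R h1 h2
    rw [hsplit P R h1 h2, hsplit N R h1 h2]
    have p1 := piece_ge P N L hPN (-R) (a - 1) h1
      (ac_of_lip L (Iic a) hcv.locallyLipschitzOn_interior _ _ h1 (by
        rw [interior_Iic]
        intro x hx
        exact lt_of_le_of_lt hx.2 (by linarith))) (Iic a)
      (fun x hx => le_trans hx.2 (by linarith)) hA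
    have p2 := piece_ge P N L hPN (b + 1) R h2
      (ac_of_lip L (Ici b) hcc.locallyLipschitzOn_interior _ _ h2 (by
        rw [interior_Ici]
        intro x hx
        exact lt_of_lt_of_le (by linarith) hx.1)) (Ici b)
      (fun x hx => le_trans (by linarith) hx.1.le) hB
    simp only [hφ] at *
    linarith
  have h3 := hT.eventually_lt_atBot (-CA + (K + -CB))
  have h4 : ∀ᶠ R : ℝ in atTop, 1 - a ≤ R := eventually_ge_atTop _
  have h5 : ∀ᶠ R : ℝ in atTop, b + 1 ≤ R := eventually_ge_atTop _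
  obtain ⟨R, hR3, hR4, hR5⟩ := (h3.and (h4.and h5)).exists
  exact absurd (hbelow R (by linarith) hR5) (not_le.2 hR3)

/-! ### the space `L¹(w)` -/

section

variable {𝕜 : Type} [RCLike 𝕜] {w : ℝ → ℝ}

lemma meas_ofReal (hc : Continuous w) : Measurable fun x => ENNReal.ofReal (w x) :=
  hc.measurable.ennreal_ofReal

lemma ae_mw_iff (hc : Continuous w) (hp : ∀ x, 0 < w x) {p : ℝ → Prop} :
    (∀ᵐ x ∂((volume : Measure ℝ).withDensity fun x => ENNReal.ofReal (w x)), p x) ↔
      ∀ᵐ x : ℝ, p x := by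
  rw [ae_withDensity_iff (meas_ofReal hc)]
  constructor
  · intro h
    filter_upwards [h] with x hx
    exact hx (by simpa using hp x)
  · intro h
    filter_upwards [h] with x hx _
    exact hx

lemma integrable_mw_iff (hc : Continuous w) (hp : ∀ x, 0 < w x) {f : ℝ → 𝕜} :
    Integrable f ((volume : Measure ℝ).withDensity fun x => ENNReal.ofReal (w x)) ↔
      Integrable fun x => (w x : 𝕜) * f x := by
  rw [integrable_withDensity_iff_integrable_smul' (meas_ofReal hc)
    (ae_of_all _ fun _ => ENNReal.ofReal_lt_top)]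
  apply integrable_congr
  apply ae_of_all
  intro x
  simp only [ENNReal.toReal_ofReal (hp x).le]
  rw [RCLike.real_smul_eq_coe_mul]

/-- two elements agreeing a.e. are equal -/
lemma ext_vol (hc : Continuous w) (hp : ∀ x, 0 < w x) {u v : L1 𝕜 w}
    (h : (u : ℝ → 𝕜) =ᵐ[volume] v) : u = v :=
  Lp.ext ((ae_mw_iff hc hp).2 h)

lemma coe_integrable (hc : Continuous w) (hp : ∀ x, 0 < w x) (u : L1 𝕜 w) :
    Integrable fun x => (w x : 𝕜) * (u : ℝ → 𝕜) x :=
  (integrable_mw_iff hc hp).1 (L1.integrable_coeFn u)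

lemma exists_rep (hc : Continuous w) (hp : ∀ x, 0 < w x) {f : ℝ → 𝕜}
    (hf : Integrable fun x => (w x : 𝕜) * f x) : ∃ u : L1 𝕜 w, (u : ℝ → 𝕜) =ᵐ[volume] f := by
  have h := (integrable_mw_iff hc hp).2 hf
  exact ⟨h.toL1 f, (ae_mw_iff hc hp).1 h.coeFn_toL1⟩

lemma norm_sub_eq (hc : Continuous w) (hp : ∀ x, 0 < w x) (u v : L1 𝕜 w) :
    ‖u - v‖ = ∫ x, ‖(u : ℝ → 𝕜) x - (v : ℝ → 𝕜) x‖ * w x := by
  rw [L1.norm_eq_integral_norm]
  have h1 : ∫ x, ‖(↑(u - v) : ℝ → 𝕜) x‖
      ∂((volume : Measure ℝ).withDensity fun x => ENNReal.ofReal (w x)) =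
      ∫ x, ‖(u : ℝ → 𝕜) x - (v : ℝ → 𝕜) x‖
      ∂((volume : Measure ℝ).withDensity fun x => ENNReal.ofReal (w x)) := by
    apply integral_congr_ae
    filter_upwards [Lp.coeFn_sub u v] with x hx
    rw [hx, Pi.sub_apply]
  rw [h1, integral_withDensity_eq_integral_toReal_smul (meas_ofReal hc)
    (ae_of_all _ fun _ => ENNReal.ofReal_lt_top)]
  congr 1
  ext x
  rw [ENNReal.toReal_ofReal (hp x).le, smul_eq_mul, mul_comm]

lemma coe_add' (hc : Continuous w) (hp : ∀ x, 0 < w x) (u v : L1 𝕜 w) :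
    (↑(u + v) : ℝ → 𝕜) =ᵐ[volume] fun x => (u : ℝ → 𝕜) x + (v : ℝ → 𝕜) x := by
  have := (ae_mw_iff hc hp).1 (Lp.coeFn_add u v)
  filter_upwards [this] with x hx
  rw [hx, Pi.add_apply]

lemma coe_sub' (hc : Continuous w) (hp : ∀ x, 0 < w x) (u v : L1 𝕜 w) :
    (↑(u - v) : ℝ → 𝕜) =ᵐ[volume] fun x => (u : ℝ → 𝕜) x - (v : ℝ → 𝕜) x := by
  have := (ae_mw_iff hc hp).1 (Lp.coeFn_sub u v)
  filter_upwards [this] with x hx
  rw [hx, Pi.sub_apply]

lemma coe_smul' (hc : Continuous w) (hp : ∀ x, 0 < w x) (c : 𝕜) (u : L1 𝕜 w) :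
    (↑(c • u) : ℝ → 𝕜) =ᵐ[volume] fun x => c * (u : ℝ → 𝕜) x := by
  have := (ae_mw_iff hc hp).1 (Lp.coeFn_smul c u)
  filter_upwards [this] with x hx
  rw [hx, Pi.smul_apply, smul_eq_mul]

lemma coe_zero' (hc : Continuous w) (hp : ∀ x, 0 < w x) :
    (↑(0 : L1 𝕜 w) : ℝ → 𝕜) =ᵐ[volume] fun _ => 0 := by
  have := (ae_mw_iff hc hp).1 (Lp.coeFn_zero 𝕜 1
    ((volume : Measure ℝ).withDensity fun x => ENNReal.ofReal (w x)))
  filter_upwards [this] with x hx
  rw [hx, Pi.zero_apply]

omit [RCLike 𝕜] in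
lemma ae_shift {f g : ℝ → 𝕜} (t : ℝ) (h : f =ᵐ[volume] g) :
    (fun x => f (x - t)) =ᵐ[volume] fun x => g (x - t) := by
  have hq : Measure.QuasiMeasurePreserving (fun x : ℝ => x - t) volume volume :=
    (measurePreserving_sub_right volume t).quasiMeasurePreserving
  exact hq.ae h

end

/-- the landed theorem in alternative form -/
lemma alternative (w : ℝ → ℝ) (hc : Continuous w) (hp : ∀ x, 0 < w x) (hcc : ConvexConcave w)
    (h1 : CondI w) (h2 : CondII w) (S : Set (ℝ → ℂ))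
    (hint : ∀ f ∈ S, Integrable (fun x => (w x : ℂ) * f x))
    (hadd : ∀ f ∈ S, ∀ g ∈ S, f + g ∈ S)
    (hsmul : ∀ c : ℂ, ∀ f ∈ S, c • f ∈ S)
    (hae : ∀ f ∈ S, ∀ g : ℝ → ℂ, g =ᵐ[volume] f → g ∈ S)
    (hshift : ∀ f ∈ S, ∀ t : ℝ, 0 ≤ t → (fun x => f (x - t)) ∈ S)
    (hcl : ∀ (u : ℕ → ℝ → ℂ) (f : ℝ → ℂ), (∀ n, u n ∈ S) →
        Integrable (fun x => (w x : ℂ) * f x) →
        Tendsto (fun n => ∫ x, ‖u n x - f x‖ * w x) atTop (𝓝 0) → f ∈ S) :
    (∀ f ∈ S, f =ᵐ[volume] 0) ∨
      (∀ f : ℝ → ℂ, Integrable (fun x => (w x : ℂ) * f x) → f ∈ S) ∨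
      ∃ a : ℝ, S = {f : ℝ → ℂ | Integrable (fun x => (w x : ℂ) * f x) ∧
        ∀ᵐ x : ℝ, x < a → f x = 0} := by
  by_contra hcon
  push Not at hcon
  obtain ⟨⟨f, hfS, hf0⟩, ⟨g, hgi, hgS⟩, hne⟩ := hcon
  obtain ⟨a, b, hab, hcv, hcv2⟩ := hcc
  refine Pool.Agent.Domar.domar_final ⟨w, hc, hp, ⟨a, b, hcv, hcv2,
    lintegral_top w h2 a b hab hcv hcv2⟩, ?_, S, hint, hadd, hsmul, hae, hshift, hcl,
    ⟨f, hfS, hf0⟩, ⟨g, hgi, hgS⟩, hne⟩
  rw [cocompact_eq_atBot_atTop, tendsto_sup]
  exact ⟨h1.2, h1.1⟩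

/-- complex scalars -/
lemma main_complex (w : ℝ → ℝ) (hc : Continuous w) (hp : ∀ x, 0 < w x) (hcc : ConvexConcave w)
    (h1 : CondI w) (h2 : CondII w) (V : Submodule ℂ (L1 ℂ w)) (hV : IsClosed (V : Set (L1 ℂ w)))
    (hT : RightInvariant V) : Standard V := by
  set S : Set (ℝ → ℂ) := {F | ∃ u ∈ V, (u : ℝ → ℂ) =ᵐ[volume] F} with hS
  have memS : ∀ u : L1 ℂ w, (u : ℝ → ℂ) ∈ S ↔ u ∈ V := by
    intro u
    constructor
    · rintro ⟨v, hv, hvu⟩
      rwa [← ext_vol hc hp hvu]
    · intro hu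
      exact ⟨u, hu, Filter.EventuallyEq.rfl⟩
  have hint : ∀ f ∈ S, Integrable (fun x => (w x : ℂ) * f x) := by
    rintro f ⟨u, -, huf⟩
    refine (coe_integrable hc hp u).congr ?_
    filter_upwards [huf] with x hx
    rw [hx]
    rfl
  have A1 : ∀ f ∈ S, ∀ g ∈ S, f + g ∈ S := by
    rintro f ⟨u, hu, huf⟩ g ⟨v, hv, hvg⟩
    refine ⟨u + v, V.add_mem hu hv, ?_⟩
    filter_upwards [coe_add' hc hp u v, huf, hvg] with x hx hxf hxg
    rw [hx, hxf, hxg, Pi.add_apply]
  have A2 : ∀ c : ℂ, ∀ f ∈ S, c • f ∈ S := by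
    rintro c f ⟨u, hu, huf⟩
    refine ⟨c • u, V.smul_mem c hu, ?_⟩
    filter_upwards [coe_smul' hc hp c u, huf] with x hx hxf
    rw [hx, hxf, Pi.smul_apply, smul_eq_mul]
  have A3 : ∀ f ∈ S, ∀ g : ℝ → ℂ, g =ᵐ[volume] f → g ∈ S := by
    rintro f ⟨u, hu, huf⟩ g hgf
    exact ⟨u, hu, huf.trans hgf.symm⟩
  have A4 : ∀ f ∈ S, ∀ t : ℝ, 0 ≤ t → (fun x => f (x - t)) ∈ S := by
    rintro f ⟨u, hu, huf⟩ t ht
    obtain ⟨g, hg, hgu⟩ := hT t ht u hu
    exact ⟨g, hg, hgu.trans (ae_shift t huf)⟩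
  have A5 : ∀ (u : ℕ → ℝ → ℂ) (f : ℝ → ℂ), (∀ n, u n ∈ S) →
        Integrable (fun x => (w x : ℂ) * f x) →
        Tendsto (fun n => ∫ x, ‖u n x - f x‖ * w x) atTop (𝓝 0) → f ∈ S := by
    intro U f hU hf hlim
    choose u hu huU using hU
    obtain ⟨v, hv⟩ := exists_rep hc hp hf
    refine ⟨v, ?_, hv⟩
    apply hV.mem_of_tendsto (f := u) (b := atTop)
    · rw [tendsto_iff_norm_sub_tendsto_zero]
      refine hlim.congr (fun n => ?_)
      rw [norm_sub_eq hc hp]
      apply integral_congr_ae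
      filter_upwards [huU n, hv] with x hx hx2
      rw [hx, hx2]
    · exact Eventually.of_forall hu
  rcases alternative w hc hp hcc h1 h2 S hint A1 A2 A3 A4 A5 with h | h | ⟨a, h⟩
  · left
    rw [eq_bot_iff]
    intro u hu
    have h3 := h _ ((memS u).2 hu)
    rw [Submodule.mem_bot]
    apply ext_vol hc hp
    exact h3.trans (coe_zero' hc hp).symm
  · right; left
    rw [eq_top_iff]
    intro u _
    exact (memS u).1 (h _ (coe_integrable hc hp u))
  · right; right
    refine ⟨a, fun f => ?_⟩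
    rw [← memS f, h]
    constructor
    · intro h3
      exact h3.2
    · intro h3
      exact ⟨coe_integrable hc hp f, h3⟩

/-- real scalars -/
lemma main_real (w : ℝ → ℝ) (hc : Continuous w) (hp : ∀ x, 0 < w x) (hcc : ConvexConcave w)
    (h1 : CondI w) (h2 : CondII w) (V : Submodule ℝ (L1 ℝ w)) (hV : IsClosed (V : Set (L1 ℝ w)))
    (hT : RightInvariant V) : Standard V := by
  set S : Set (ℝ → ℂ) := {F | (∃ u ∈ V, (u : ℝ → ℝ) =ᵐ[volume] fun x => (F x).re) ∧
    ∃ u ∈ V, (u : ℝ → ℝ) =ᵐ[volume] fun x => (F x).im} with hS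
  have memS : ∀ u : L1 ℝ w, (fun x => ((u : ℝ → ℝ) x : ℂ)) ∈ S ↔ u ∈ V := by
    intro u
    constructor
    · rintro ⟨⟨v, hv, hvu⟩, -⟩
      simp only [Complex.ofReal_re] at hvu
      rwa [← ext_vol hc hp hvu]
    · intro hu
      refine ⟨⟨u, hu, ?_⟩, ⟨0, V.zero_mem, ?_⟩⟩
      · simp only [Complex.ofReal_re]
        exact Filter.EventuallyEq.rfl
      · simp only [Complex.ofReal_im]
        exact coe_zero' hc hp
  have hint : ∀ f ∈ S, Integrable (fun x => (w x : ℂ) * f x) := by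
    rintro f ⟨⟨u, -, huf⟩, ⟨v, -, hvf⟩⟩
    have i1 := (coe_integrable hc hp u).ofReal (𝕜 := ℂ)
    have i2 := ((coe_integrable hc hp v).ofReal (𝕜 := ℂ)).mul_const Complex.I
    refine (i1.add i2).congr ?_
    filter_upwards [huf, hvf] with x hx hx2
    simp only [Pi.add_apply]
    rw [hx, hx2]
    apply Complex.ext <;> simp
  have cint : ∀ u : L1 ℝ w, Integrable (fun x => (w x : ℂ) * ((u : ℝ → ℝ) x : ℂ)) := by
    intro u
    refine ((coe_integrable hc hp u).ofReal (𝕜 := ℂ)).congr ?_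
    apply ae_of_all
    intro x
    apply Complex.ext <;> simp
  have A1 : ∀ f ∈ S, ∀ g ∈ S, f + g ∈ S := by
    rintro f ⟨⟨u, hu, huf⟩, ⟨u', hu', huf'⟩⟩ g ⟨⟨v, hv, hvg⟩, ⟨v', hv', hvg'⟩⟩
    refine ⟨⟨u + v, V.add_mem hu hv, ?_⟩, ⟨u' + v', V.add_mem hu' hv', ?_⟩⟩
    · filter_upwards [coe_add' hc hp u v, huf, hvg] with x hx hxf hxg
      rw [hx, hxf, hxg, Pi.add_apply, Complex.add_re]
    · filter_upwards [coe_add' hc hp u' v', huf', hvg'] with x hx hxf hxg
      rw [hx, hxf, hxg, Pi.add_apply, Complex.add_im]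
  have A2 : ∀ c : ℂ, ∀ f ∈ S, c • f ∈ S := by
    rintro c f ⟨⟨u, hu, huf⟩, ⟨v, hv, hvf⟩⟩
    refine ⟨⟨c.re • u - c.im • v, V.sub_mem (V.smul_mem _ hu) (V.smul_mem _ hv), ?_⟩,
      ⟨c.re • v + c.im • u, V.add_mem (V.smul_mem _ hv) (V.smul_mem _ hu), ?_⟩⟩
    · filter_upwards [coe_sub' hc hp (c.re • u) (c.im • v), coe_smul' hc hp c.re u,
        coe_smul' hc hp c.im v, huf, hvf] with x hx hx1 hx2 hxf hxg
      rw [hx, hx1, hx2, hxf, hxg, Pi.smul_apply, smul_eq_mul, Complex.mul_re]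
    · filter_upwards [coe_add' hc hp (c.re • v) (c.im • u), coe_smul' hc hp c.re v,
        coe_smul' hc hp c.im u, huf, hvf] with x hx hx1 hx2 hxf hxg
      rw [hx, hx1, hx2, hxf, hxg, Pi.smul_apply, smul_eq_mul, Complex.mul_im]
  have A3 : ∀ f ∈ S, ∀ g : ℝ → ℂ, g =ᵐ[volume] f → g ∈ S := by
    rintro f ⟨⟨u, hu, huf⟩, ⟨v, hv, hvf⟩⟩ g hgf
    refine ⟨⟨u, hu, ?_⟩, ⟨v, hv, ?_⟩⟩
    · filter_upwards [huf, hgf] with x hx hx2
      rw [hx, hx2]
    · filter_upwards [hvf, hgf] with x hx hx2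
      rw [hx, hx2]
  have A4 : ∀ f ∈ S, ∀ t : ℝ, 0 ≤ t → (fun x => f (x - t)) ∈ S := by
    rintro f ⟨⟨u, hu, huf⟩, ⟨v, hv, hvf⟩⟩ t ht
    obtain ⟨g, hg, hgu⟩ := hT t ht u hu
    obtain ⟨g', hg', hgu'⟩ := hT t ht v hv
    exact ⟨⟨g, hg, hgu.trans (ae_shift t huf)⟩, ⟨g', hg', hgu'.trans (ae_shift t hvf)⟩⟩
  have A5 : ∀ (u : ℕ → ℝ → ℂ) (f : ℝ → ℂ), (∀ n, u n ∈ S) →
        Integrable (fun x => (w x : ℂ) * f x) →
        Tendsto (fun n => ∫ x, ‖u n x - f x‖ * w x) atTop (𝓝 0) → f ∈ S := by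
    intro U f hU hf hlim
    choose hU1 hU2 using hU
    choose u hu huU using hU1
    choose v hv hvU using hU2
    have hfre : Integrable (fun x => ((w x : ℝ) : ℝ) * (f x).re) := by
      refine hf.re.congr (ae_of_all _ fun x => ?_)
      simp
    have hfim : Integrable (fun x => ((w x : ℝ) : ℝ) * (f x).im) := by
      refine hf.im.congr (ae_of_all _ fun x => ?_)
      simp
    obtain ⟨u₀, hu₀⟩ := exists_rep (𝕜 := ℝ) hc hp hfre
    obtain ⟨v₀, hv₀⟩ := exists_rep (𝕜 := ℝ) hc hp hfim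
    have hUint : ∀ n, Integrable (fun x => ‖U n x - f x‖ * w x) := by
      intro n
      have hUn : Integrable (fun x => (w x : ℂ) * U n x) :=
        hint _ ⟨⟨u n, hu n, huU n⟩, ⟨v n, hv n, hvU n⟩⟩
      refine (hUn.sub hf).norm.congr (ae_of_all _ fun x => ?_)
      simp only [Pi.sub_apply]
      rw [← mul_sub, norm_mul, Complex.norm_real, Real.norm_eq_abs, abs_of_pos (hp x), mul_comm]
    refine ⟨⟨u₀, ?_, hu₀⟩, ⟨v₀, ?_, hv₀⟩⟩
    · apply hV.mem_of_tendsto (f := u) (b := atTop)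
      · rw [tendsto_iff_norm_sub_tendsto_zero]
        refine squeeze_zero (fun _ => norm_nonneg _) (fun n => ?_) hlim
        rw [norm_sub_eq hc hp]
        apply integral_mono_of_nonneg
        · exact ae_of_all _ fun x => mul_nonneg (norm_nonneg _) (hp x).le
        · exact hUint n
        · filter_upwards [huU n, hu₀] with x hx hx2
          rw [hx, hx2, ← Complex.sub_re]
          exact mul_le_mul_of_nonneg_right (Complex.abs_re_le_norm _) (hp x).le
      · exact Eventually.of_forall hu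
    · apply hV.mem_of_tendsto (f := v) (b := atTop)
      · rw [tendsto_iff_norm_sub_tendsto_zero]
        refine squeeze_zero (fun _ => norm_nonneg _) (fun n => ?_) hlim
        rw [norm_sub_eq hc hp]
        apply integral_mono_of_nonneg
        · exact ae_of_all _ fun x => mul_nonneg (norm_nonneg _) (hp x).le
        · exact hUint n
        · filter_upwards [hvU n, hv₀] with x hx hx2
          rw [hx, hx2, ← Complex.sub_im]
          exact mul_le_mul_of_nonneg_right (Complex.abs_im_le_norm _) (hp x).le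
      · exact Eventually.of_forall hv
  rcases alternative w hc hp hcc h1 h2 S hint A1 A2 A3 A4 A5 with h | h | ⟨a, h⟩
  · left
    rw [eq_bot_iff]
    intro u hu
    have h3 := h _ ((memS u).2 hu)
    rw [Submodule.mem_bot]
    apply ext_vol hc hp
    filter_upwards [h3, coe_zero' (𝕜 := ℝ) hc hp] with x hx hx2
    rw [hx2]
    simpa using hx
  · right; left
    rw [eq_top_iff]
    intro u _
    exact (memS u).1 (h _ (cint u))
  · right; right
    refine ⟨a, fun f => ?_⟩
    rw [← memS f, h]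
    constructor
    · intro h3
      filter_upwards [h3.2] with x hx hxa
      exact_mod_cast hx hxa
    · intro h3
      refine ⟨cint f, ?_⟩
      filter_upwards [h3] with x hx hxa
      rw [hx hxa, Complex.ofReal_zero]

theorem result (w : ℝ → ℝ) (hc : Continuous w) (hp : ∀ x, 0 < w x) (hcc : ConvexConcave w)
    (h1 : CondI w) (h2 : CondII w) :
    (∀ V : Submodule ℂ (L1 ℂ w), IsClosed (V : Set (L1 ℂ w)) → RightInvariant V → Standard V) ∧
    (∀ V : Submodule ℝ (L1 ℝ w), IsClosed (V : Set (L1 ℝ w)) → RightInvariant V → Standard V) :=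
  ⟨main_complex w hc hp hcc h1 h2, main_real w hc hp hcc h1 h2⟩

end Pool.Agent.Results.MP_af79d0_an.AllSubspacesStandard
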